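import Pool.Agent.helper41.HFE.Spec

/-!
# Project HFE (MP_3221a1_ag), row hfe:RLZ: realization of a partial matching on a Moebius curve
-/

set_option autoImplicit false

open Polynomial Module Pool.Agent.HFN

namespace Pool.Agent.HFE

noncomputable section

open Pool.Agent.helper29.JZ

theorem RLZ_nn {h h' : ℕ} (x : Fin h → ℂ) (y : Fin h' → ℂ) (M : Finset (Fin h × Fin h')) (hx : Function.Injective x) (hy : Function.Injective y) (f : AA)
    (S : Finset (Fin h × Fin h')) (hS : ∀ p, p ∈ S ↔ p ∈ M ∧ ev (x p.1, y p.2) f = 0) : nn (ZZ x y M) f = S.card := by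
  classical
  have hinj : Function.Injective (fun p : Fin h × Fin h' => (x p.1, y p.2)) := by
    rintro ⟨a, b⟩ ⟨c, d⟩ hh
    simp only [Prod.mk.injEq] at hh
    rw [hx hh.1, hy hh.2]
  rw [← Finset.card_image_of_injective S hinj]
  unfold nn ZZ
  congr 1
  ext q
  simp only [Finset.mem_filter, Finset.mem_image]
  constructor
  · rintro ⟨⟨p, hp, rfl⟩, hq⟩
    exact ⟨p, (hS p).2 ⟨hp, hq⟩, rfl⟩
  · rintro ⟨p, hp, rfl⟩
    exact ⟨⟨p, ((hS p).1 hp).1, rfl⟩, ((hS p).1 hp).2⟩

theorem RLZ : RLZ_stmt := by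
  classical
  rintro hz h11 hmx h h' M v ⟨W, hWM, ⟨hW1, hW2⟩, hWc⟩
  obtain ⟨z, hzi, hzG⟩ := hz (h + h')
  obtain ⟨τ, hτ⟩ : ∃ τ : Fin h' → Fin (h + h'), ∀ m, (∀ k, (k, m) ∈ W → τ m = Fin.castAdd h' k) ∧ ((¬ ∃ k, (k, m) ∈ W) → τ m = Fin.natAdd h m) := by
    refine ⟨fun m => if H : ∃ k, (k, m) ∈ W then Fin.castAdd h' H.choose else Fin.natAdd h m, fun m => ⟨fun k hk => ?_, fun H => ?_⟩⟩
    · have H : ∃ k, (k, m) ∈ W := ⟨k, hk⟩
      have h3 := hW2 _ H.choose_spec _ hk rfl
      exact (dif_pos H).trans (congrArg (Fin.castAdd h') (Prod.ext_iff.1 h3).1)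
    · exact dif_neg H
  have hne : ∀ (k : Fin h) (m : Fin h'), Fin.castAdd h' k ≠ Fin.natAdd h m := by
    intro k m e
    have e1 := congrArg Fin.val e
    rw [Fin.val_castAdd, Fin.val_natAdd] at e1
    have := k.2
    omega
  have hA : ∀ (k : Fin h) (m : Fin h'), Fin.castAdd h' k = τ m ↔ (k, m) ∈ W := by
    intro k m
    constructor
    · intro e
      by_cases H : ∃ k', (k', m) ∈ W
      · obtain ⟨k', hk'⟩ := H
        rw [(hτ m).1 k' hk'] at e
        rw [Fin.castAdd_injective h h' e]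
        exact hk'
      · rw [(hτ m).2 H] at e
        exact absurd e (hne k m)
    · intro hk
      exact ((hτ m).1 k hk).symm
  have hτi : Function.Injective τ := by
    intro m m' e
    by_cases H : ∃ k, (k, m) ∈ W
    · obtain ⟨k, hk⟩ := H
      rw [(hτ m).1 k hk] at e
      have h2 := hW1 _ hk _ ((hA k m').1 e) rfl
      exact (Prod.ext_iff.1 h2).2
    · by_cases H' : ∃ k, (k, m') ∈ W
      · obtain ⟨k, hk⟩ := H'
        rw [(hτ m').1 k hk] at e
        exact absurd ⟨k, (hA k m).1 e.symm⟩ H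
      · rw [(hτ m).2 H, (hτ m').2 H'] at e
        exact Fin.natAdd_injective h' h e
  have hx : Function.Injective (fun k : Fin h => z (Fin.castAdd h' k)) := fun a b e => Fin.castAdd_injective h h' (hzi e)
  have hy : Function.Injective (fun m : Fin h' => z (τ m)) := fun a b e => hτi (hzi e)
  obtain ⟨v', hv'⟩ := hmx (ZZ (fun k : Fin h => z (Fin.castAdd h' k)) (fun m : Fin h' => z (τ m)) M)
  refine ⟨fun k => z (Fin.castAdd h' k), fun m => z (τ m), hx, hy, v', hv', ?_, ?_⟩
  · obtain ⟨f, hf, hfe⟩ := h11.2.1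
    have h1 := hv'.1 f hf
    rw [RLZ_nn _ _ M hx hy f W (by
      rintro ⟨k, m⟩
      constructor
      · intro hk
        refine ⟨hWM hk, ?_⟩
        rw [hfe]
        show z (Fin.castAdd h' k) - z (τ m) = 0
        rw [(hA k m).2 hk, sub_self]
      · rintro ⟨hk, he⟩
        rw [hfe] at he
        exact (hA k m).1 (hzi (sub_eq_zero.1 he)))] at h1
    rw [← hWc]
    exact h1
  · obtain ⟨f, hf, hfv⟩ := hv'.2
    rw [← hfv]
    obtain ⟨a, b, c, d, hD, hfe⟩ := h11.1 f hf
    by_cases hcase : a = 0 ∧ d = 0 ∧ b + c = 0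
    · obtain ⟨ha, hd, hbc⟩ := hcase
      refine le_max_of_le_left (le_of_eq ?_)
      rw [← hWc]
      refine RLZ_nn _ _ M hx hy f W ?_
      have hb : b ≠ 0 := by
        rintro rfl
        apply hD
        rw [ha]
        ring
      have hc : c = -b := by linear_combination hbc
      rintro ⟨k, m⟩
      constructor
      · intro hk
        refine ⟨hWM hk, ?_⟩
        rw [hfe]
        show a * z (Fin.castAdd h' k) * z (τ m) + b * z (τ m) + c * z (Fin.castAdd h' k) + d = 0
        rw [(hA k m).2 hk, ha, hd, hc]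
        ring
      · rintro ⟨hk, he⟩
        rw [hfe] at he
        have he' : a * z (Fin.castAdd h' k) * z (τ m) + b * z (τ m) + c * z (Fin.castAdd h' k) + d = 0 := he
        rw [ha, hd, hc] at he'
        have h2 : b * (z (τ m) - z (Fin.castAdd h' k)) = 0 := by linear_combination he'
        have h3 := (mul_eq_zero.1 h2).resolve_left hb
        exact (hA k m).1 (hzi (sub_eq_zero.1 h3).symm)
    · refine le_max_of_le_right ?_
      have hS : ∀ p : Fin h × Fin h', p ∈ M.filter (fun p => ev (z (Fin.castAdd h' p.1), z (τ p.2)) f = 0) ↔ p ∈ M ∧ ev (z (Fin.castAdd h' p.1), z (τ p.2)) f = 0 :=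
        fun p => Finset.mem_filter
      rw [RLZ_nn _ _ M hx hy f _ hS]
      have hinj : Function.Injective (fun p : Fin h × Fin h' => (Fin.castAdd h' p.1, τ p.2)) := by
        rintro ⟨a, b⟩ ⟨c, d⟩ hh
        simp only [Prod.mk.injEq] at hh
        rw [Fin.castAdd_injective h h' hh.1, hτi hh.2]
      rw [← Finset.card_image_of_injective _ hinj]
      refine hzG a b c d hD hcase _ ?_
      intro q hq
      obtain ⟨p, hp, rfl⟩ := Finset.mem_image.1 hq
      have h2 := (Finset.mem_filter.1 hp).2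
      rw [hfe] at h2
      exact h2

end

end Pool.Agent.HFE
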